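import Pool.Graph.R_pool_sql_team_seeded_64922ed1.X82.OC5
import Pool.Graph.R_seed8.Y425.OW6.Fin
import Pool.Agent.H14.QF.Tame

/-!
# Orientable five cycle double covers: the edges which are not local, and a closure of all known
# classes

The local edges of a graph are the least set of edges which contains all edges of the circuits with
at most four edges, and of the circuits which have at most four edges after local edges have been
contracted.  Let `G` be a graph without cut edges in which no nine edges which are not local are
disjoint (for instance, a graph with matching number at most eight), or no circuit has more than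
thirteen edges which are not local, or there are no thirteen disjoint vertex sets with different
boundaries each of which consists of exactly three edges which are not local.  Then there are five
families of directed cycles such that every edge of `G` is traversed exactly once in each direction.
The same holds for all graphs which are obtained, by identification of vertices, edge-disjoint unions
and sums along cuts with at most three edges, from such multigraphs, multigraphs without cut edges of
carving width at most five or cutwidth at most six, and multigraphs with a nowhere-zero 4-flow.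

Proof. An orientable double cover with five classes is a flow with values `e_i - e_j`.  A minimal
contraction without a nowhere-zero 4-flow and without a Petersen quotient has no circuits with at
most four edges; so the local edges are loops of it, and its circuits, matchings and cuts can be
lifted (`H14.QF`).  By the library (`W5h8/M9`, `N393/C13`, `TH362/FO`) there is no such contraction of
a graph in one of the first three classes.  A smallest contraction without a flow with the values
above has, after sums along cuts with three edges, a Petersen quotient whose classes are single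
vertices (library `R140/PK`). The operations are those of the file `OrientedClosure` of the library.
-/

set_option autoImplicit false

open Finset

namespace Pool.Agent.Results.MP_781dd6_co.NineDisjointEdges

open Pool.Agent.X82.OC Pool.Agent

/-- Every vertex has even degree in `(V, C)`; a loop counts twice. -/
def IsEven {V E : Type} (s t : E → V) (C : Set E) : Prop :=
  ∀ v, Even ({e | e ∈ C ∧ s e = v}.ncard + {e | e ∈ C ∧ t e = v}.ncard)

/-- The edges with exactly one end in `Z`. -/
def leaving {V E : Type} (s t : E → V) (Z : Set V) : Set E :=
  {e | ¬ (s e ∈ Z ↔ t e ∈ Z)}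

/-- The edge `e` is local: it is in every edge set `S` such that each even edge set with at most four
edges outside of `S` is contained in `S`. -/
def IsLocal {V E : Type} (s t : E → V) (e : E) : Prop :=
  ∀ S : Set E, (∀ C, IsEven s t C → (C \ S).ncard ≤ 4 → C ⊆ S) → e ∈ S

/-- There are no nine edges, pairwise without common end, none of which is local. -/
def NoNineDisjointEdges {V E : Type} (s t : E → V) : Prop :=
  ¬ ∃ f : Fin 9 → E, (∀ i, ¬ IsLocal s t (f i)) ∧
    ∀ i j, i ≠ j → Disjoint ({s (f i), t (f i)} : Set V) {s (f j), t (f j)}

/-- No circuit has more than thirteen edges which are not local: there are no `n` different vertices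
`v 0, ..., v (n - 1)` such that the edge `e i` joins `v i` and `v (i + 1)` for each `i`, where the
indices are read modulo `n`, and more than thirteen of the edges `e 0, ..., e (n - 1)` are not
local. -/
def NoLongCircuit {V E : Type} (s t : E → V) : Prop :=
  ¬ ∃ (n : ℕ) (v : ℕ → V) (e : ℕ → E), (∀ i < n, ∀ j < n, v i = v j → i = j) ∧
    (∀ i < n, (s (e i) = v i ∧ t (e i) = v ((i + 1) % n)) ∨
      (s (e i) = v ((i + 1) % n) ∧ t (e i) = v i)) ∧
    13 < {i | i < n ∧ ¬ IsLocal s t (e i)}.ncard

/-- There are no thirteen pairwise disjoint vertex sets with pairwise different boundaries each of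
which has exactly three edges, none of them local. -/
def FewThreeCuts {V E : Type} (s t : E → V) : Prop :=
  ¬ ∃ X : Fin 13 → Set V, (∀ i j, i ≠ j → Disjoint (X i) (X j)) ∧
    (∀ i j, i ≠ j → leaving s t (X i) ≠ leaving s t (X j)) ∧
    ∀ i, (leaving s t (X i)).ncard = 3 ∧ ∀ e ∈ leaving s t (X i), ¬ IsLocal s t e

/-- The carving width is at most `k`: `T` is a binary tree whose leaves are labelled bijectively by
the vertices, and for every subtree at most `k` edges leave the set of its leaves. -/
def CarvingWidthLE {V E : Type} [Fintype E] (s t : E → V) (k : ℕ) : Prop :=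
  ∃ T : Pool.Agent.TH505.OW.Tr V, T.set = Set.univ ∧ T.Nodup ∧ T.Width s t k

/-- The cutwidth is at most `k`: the vertices are placed on a line such that at most `k` edges pass
over each gap. -/
def CutwidthLE {V E : Type} (s t : E → V) (k : ℕ) : Prop :=
  ∃ f : V → ℕ, Function.Injective f ∧ ∀ n, (leaving s t {v | f v < n}).ncard ≤ k

open Classical in
/-- The ends of the edges after every vertex of `Z` has been replaced by `z`. -/
noncomputable def contract {V E : Type} (Z : Set V) (z : V) (s : E → V) (e : E) : V :=
  if s e ∈ Z then z else s e

open Classical in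
/-- The second ends of the edges after the edges in `D` have been replaced by loops. -/
noncomputable def drop {V E : Type} (s t : E → V) (D : Set E) (e : E) : V :=
  if e ∈ D then s e else t e

/-- The closure of the base graphs under identification of vertices, edge-disjoint unions, and sums
along cuts with at most three edges. The edge set `E` is fixed (a deleted edge is a loop), the vertex
set may change. -/
inductive Closure {E : Type} [Fintype E] : ∀ {V : Type}, (E → V) → (E → V) → Prop
  | base {V : Type} [Finite V] (s t : E → V) : (∀ Z, (leaving s t Z).ncard ≠ 1) →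
      (NoNineDisjointEdges s t ∨ NoLongCircuit s t ∨ FewThreeCuts s t ∨
        CarvingWidthLE s t 5 ∨ CutwidthLE s t 6) → Closure s t
  | flow {V : Type} [Finite V] (s t : E → V) (C₁ C₂ : Set E) : IsEven s t C₁ → IsEven s t C₂ →
      C₁ ∪ C₂ = Set.univ → Closure s t
  | identify {V W : Type} (s t : E → V) (c : V → W) : Closure s t → Closure (c ∘ s) (c ∘ t)
  | union {V : Type} (s t : E → V) (D : Set E) : Closure s (drop s t D) →
      Closure s (drop s t Dᶜ) → Closure s t
  | sum {V : Type} (s t : E → V) (Z : Set V) (z z' : V) : z ∈ Z → z' ∉ Z →
      (leaving s t Z).ncard ≤ 3 → Closure (contract Z z s) (contract Z z t) →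
      Closure (contract Zᶜ z' s) (contract Zᶜ z' t) → Closure s t

theorem leaving_card {V E : Type} [Fintype E] (s t : E → V) (Z : Set V) :
    (leaving s t Z).ncard = (TH505.OW.cut s t Z).card := by
  classical
  rw [← Set.ncard_coe_finset]
  congr 1
  ext e
  rw [mem_coe, TH505.OW.mem_cut]
  rfl

theorem og_narrow {V E : Type} [Fintype E] [Finite V] {s t : E → V}
    (h : ∀ Z, (leaving s t Z).ncard ≠ 1) (hw : CarvingWidthLE s t 5 ∨ CutwidthLE s t 6) :
    OG s t := by
  classical
  have := Fintype.ofFinite V
  rcases hw with ⟨T, h1, h2, h3⟩ | ⟨f, h1, h2⟩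
  · exact TH505.OW.main_good V E s t (fun Z => by rw [← leaving_card]; exact h Z) T h1 h2 h3
  · refine Y425.OW6.main_good V E s t (fun Z hZ => h Z ?_) ⟨f, h1, fun n => ?_⟩
    · rw [← hZ, ← Set.ncard_coe_finset]
      congr 1
      ext e
      rw [mem_coe, Y425.CW.mem_ct]
      rfl
    · refine le_trans (le_of_eq ?_) (h2 n)
      rw [← Set.ncard_coe_finset]
      congr 1
      ext e
      rw [mem_coe, Y425.CW.mem_ct]
      rfl

theorem og_of_fv {V E : Type} [Fintype V] [DecidableEq V] [Fintype E] [DecidableEq E]
    {s t : E → V} (h : R140.PK.Fv s t) : OG s t := by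
  obtain ⟨p, q, h1, h2⟩ := h
  have hd : ∀ a b : Fin 5, (5 * (a : ℕ) + b) / 5 = a ∧ (5 * (a : ℕ) + b) % 5 = b := by
    intro a b
    have := b.2
    omega
  refine ⟨fun e => 5 * (p e : ℕ) + q e, fun e => ?_, fun v _ i hi => ?_⟩
  · show TH505.OW.vc (5 * (p e : ℕ) + q e) = true
    rw [TH505.OW.vc_iff, (hd _ _).1, (hd _ _).2]
    refine ⟨?_, fun h => h1 e (Fin.ext h)⟩
    have := (p e).2
    have := (q e).2
    omega
  · have h3 := congrFun (h2 v) ⟨i, hi⟩
    unfold R140.PK.Bd at h3
    rw [Finset.sum_apply] at h3
    unfold TH505.OW.bd
    refine Eq.trans (sum_congr rfl fun e _ => ?_) h3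
    have h4 : TH505.OW.co (5 * (p e : ℕ) + q e) i = R140.PK.rt (p e) (q e) ⟨i, hi⟩ := by
      unfold TH505.OW.co R140.PK.rt
      rw [(hd _ _).1, (hd _ _).2]
      simp only [Fin.ext_iff]
    show TH505.OW.co (5 * (p e : ℕ) + q e) i * _ = _
    rw [h4]
    by_cases h5 : s e = v <;> by_cases h6 : t e = v <;> simp [h5, h6]

theorem cut_eq {V E : Type} [Fintype V] [DecidableEq V] [Fintype E] [DecidableEq E]
    (s t : E → V) (x : V → Bool) :
    ((TH362.TF.cut s t univ x : Finset E) : Set E) = leaving s t {v | x v = true} := by
  ext e
  simp only [leaving, Set.mem_ofPred_eq, TH362.TF.cut, coe_filter, mem_univ, true_and]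
  cases x (s e) <;> cases x (t e) <;> simp

theorem n1_of {V E : Type} [Fintype V] [DecidableEq V] [Fintype E] [DecidableEq E]
    {s t : E → V} (h : ∀ Z, (leaving s t Z).ncard ≠ 1) : TH362.TF.N1 s t univ := by
  intro x hx
  apply h {v | x v = true}
  rw [← hx, ← cut_eq, Set.ncard_coe_finset]

theorem og_tame {V E : Type} [Fintype E] [Finite V] {s t : E → V}
    (h : ∀ Z, (leaving s t Z).ncard ≠ 1)
    (hc : NoNineDisjointEdges s t ∨ NoLongCircuit s t ∨ FewThreeCuts s t) : OG s t := by
  classical
  have := Fintype.ofFinite V
  refine og_of_fv (H14.QF.Tm.fv_tame s t (n1_of h) ?_)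
  rcases hc with hc | hc | hc
  · right; left
    rintro ⟨f, h1, h2⟩
    exact hc ⟨f, fun i h3 => h1 i fun S hS => H14.QF.Mn.local_of h3 hS, h2⟩
  · left
    rintro ⟨n, v, e, hv, he, hcard⟩
    refine hc ⟨n, v, e, hv, he, lt_of_lt_of_le hcard ?_⟩
    rw [← Set.ncard_coe_finset]
    refine Set.ncard_le_ncard ?_ ((Set.finite_lt_nat n).subset fun i hi => hi.1)
    intro i hi
    rw [Finset.mem_coe, Finset.mem_filter, Finset.mem_range] at hi
    exact ⟨hi.1, fun h1 => hi.2 fun S hS => H14.QF.Mn.local_of h1 hS⟩
  · right; right
    rintro ⟨X, h1, h2, h3⟩
    refine hc ⟨fun i => {v | X i v = true}, fun i j hij => ?_, fun i j hij => ?_,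
      fun i => ⟨?_, ?_⟩⟩
    · rw [Set.disjoint_left]
      intro v hv hw
      exact h1 i j hij v ⟨hv, hw⟩
    · rw [← cut_eq, ← cut_eq]
      exact fun h4 => h2 i j hij (Finset.coe_injective h4)
    · rw [← cut_eq, Set.ncard_coe_finset]
      exact (h3 i).1
    · intro e he h4
      rw [← cut_eq, Finset.mem_coe] at he
      exact (h3 i).2 e he fun S hS => H14.QF.Mn.local_of h4 hS

theorem og_base {V E : Type} [Fintype E] [Finite V] {s t : E → V}
    (h : ∀ Z, (leaving s t Z).ncard ≠ 1) (hb : NoNineDisjointEdges s t ∨
      NoLongCircuit s t ∨ FewThreeCuts s t ∨ CarvingWidthLE s t 5 ∨ CutwidthLE s t 6) :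
    OG s t := by
  rcases hb with hb | hb | hb | hb
  · exact og_tame h (Or.inl hb)
  · exact og_tame h (Or.inr (Or.inl hb))
  · exact og_tame h (Or.inr (Or.inr hb))
  · exact og_narrow h hb

theorem og_flow' {V E : Type} [Fintype E] [Finite V] {s t : E → V} {C₁ C₂ : Set E}
    (h1 : IsEven s t C₁) (h2 : IsEven s t C₂) (h : C₁ ∪ C₂ = Set.univ) : OG s t := by
  classical
  have key : ∀ (f : E → V) (C : Set E) (v : V),
      {e | e ∈ C ∧ f e = v}.ncard = (univ.filter fun e => e ∈ C ∧ f e = v).card := by
    intro f C v
    rw [← Set.ncard_coe_finset]
    congr 1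
    ext e
    simp
  refine og_flow s t C₁ C₂ (fun v => ?_) (fun v => ?_) h
  · have h3 := h1 v
    rw [key, key] at h3
    exact h3
  · have h3 := h2 v
    rw [key, key] at h3
    exact h3

theorem og_closure {V E : Type} [Fintype E] {s t : E → V} (h : Closure s t) : OG s t := by
  classical
  induction h with
  | base s t h hb => exact og_base h hb
  | flow s t C₁ C₂ h1 h2 h => exact og_flow' h1 h2 h
  | identify s t c _ ih => exact og_map c ih
  | union s t D _ _ ih1 ih2 =>
    refine og_union D ?_ ?_
    · have h1 : drop s t D = fun e => if e ∈ D then s e else t e := by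
        funext e
        unfold drop
        by_cases h : e ∈ D <;> simp [h]
      rw [← h1]
      exact ih1
    · have h1 : drop s t Dᶜ = fun e => if e ∈ Dᶜ then s e else t e := by
        funext e
        unfold drop
        by_cases h : e ∈ D <;> simp [h]
      rw [← h1]
      exact ih2
  | sum s t Z z z' hz hz' h3 _ _ ih1 ih2 =>
    have k1 : ∀ f : E → _, contract Z z f = fun e => if f e ∈ Z then z else f e := by
      intro f
      funext e
      unfold contract
      by_cases h : f e ∈ Z <;> simp [h]
    have k2 : ∀ f : E → _, contract Zᶜ z' f = fun e => if f e ∈ Zᶜ then z' else f e := by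
      intro f
      funext e
      unfold contract
      by_cases h : f e ∈ Z <;> simp [h]
    rw [k1, k1] at ih1
    rw [k2, k2] at ih2
    refine og_sum Z hz hz' ?_ ih1 ih2
    refine le_trans (le_of_eq ?_) h3
    rw [← Set.ncard_coe_finset]
    congr 1
    ext e
    simp [leaving]

open scoped Classical in
/-- Let `G` be a finite simple graph such that for some maps `s t` giving the two ends of the edges
the graph is in the class `Closure`. Then there are five families of directed cycles such that no
family traverses an edge more than once in total and every edge is traversed exactly once in each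
direction. -/
theorem result (V : Type) [Fintype V] (G : SimpleGraph V) (s t : G.edgeSet → V)
    (hst : ∀ e, s(s e, t e) = e.1) (h : Closure s t) :
    ∃ C : Fin 5 → List (Σ v : V, G.Walk v v), (∀ i, ∀ c ∈ C i, c.2.IsCycle) ∧
      (∀ i u v, ((C i).map (fun c =>
          (c.2.darts.filter (fun d => decide (d.toProd = (u, v)))).length)).sum +
        ((C i).map (fun c =>
          (c.2.darts.filter (fun d => decide (d.toProd = (v, u)))).length)).sum ≤ 1) ∧
      ∀ u v, G.Adj u v → ∑ i, ((C i).map (fun c =>
        (c.2.darts.filter (fun d => decide (d.toProd = (u, v)))).length)).sum = 1 :=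
  cycles_of_ends G s t hst (og_closure h)

end Pool.Agent.Results.MP_781dd6_co.NineDisjointEdges
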